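import Pool.Agent.H.MP_81d9be_nt.Fam

/-!
# MP_81d9be_nt: all solutions for which the exponent of the term with coefficient `2` is divisible by
`4` and the exponents of the two other terms are divisible by `3`
-/

set_option autoImplicit false

namespace Pool.Agent.Results.MP_81d9be_nt.CubesTwiceFourth

open GF2

/-- If `a x ^ p + b y ^ q = c z ^ r` in positive integers, `a b c = 2`, `gcd (x, y, z) = 1`, the
exponent of the term with coefficient `2` is divisible by `4` and the two other exponents are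
divisible by `3`, then `a = b = 1`, `c = 2` and `x = y = z = 1`. -/
theorem result :
    ∀ a b c x y z p q r : ℕ, a * b * c = 2 → 0 < x → 0 < y → 0 < z →
      Nat.gcd (Nat.gcd x y) z = 1 → 0 < p → 0 < q → 0 < r →
      ((a = 2 ∧ 4 ∣ p ∧ 3 ∣ q ∧ 3 ∣ r) ∨ (b = 2 ∧ 3 ∣ p ∧ 4 ∣ q ∧ 3 ∣ r) ∨
        (c = 2 ∧ 3 ∣ p ∧ 3 ∣ q ∧ 4 ∣ r)) →
      a * x ^ p + b * y ^ q = c * z ^ r →
      a = 1 ∧ b = 1 ∧ c = 2 ∧ x = 1 ∧ y = 1 ∧ z = 1 := by
  intro a b c x y z p q r habc hx hy hz hg hp hq hr hexp h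
  have hG := gcd_aux hg
  rcases hexp with ⟨rfl, ⟨i, rfl⟩, ⟨j, rfl⟩, ⟨k, rfl⟩⟩ | ⟨rfl, ⟨i, rfl⟩, ⟨j, rfl⟩, ⟨k, rfl⟩⟩ |
    ⟨rfl, ⟨i, rfl⟩, ⟨j, rfl⟩, ⟨k, rfl⟩⟩
  · exfalso
    have hbc : b * c = 1 := by nlinarith
    obtain ⟨rfl, rfl⟩ := mul_eq_one.1 hbc
    have h1 : (z : ℤ) ^ (3 * k) + (-1) * (y : ℤ) ^ (3 * j) = 2 * (x : ℤ) ^ (4 * i) := by
      have h2 : (2 : ℤ) * (x : ℤ) ^ (4 * i) + 1 * (y : ℤ) ^ (3 * j) = 1 * (z : ℤ) ^ (3 * k) := by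
        exact_mod_cast h
      linear_combination -h2
    have h3 := famF (by omega) (by omega) (by omega) hx (Or.inr rfl) h1
      (fun l hl h4 h5 h6 => hG l hl h6 h5 h4)
    omega
  · exfalso
    have hac : a * c = 1 := by nlinarith
    obtain ⟨rfl, rfl⟩ := mul_eq_one.1 hac
    have h1 : (z : ℤ) ^ (3 * k) + (-1) * (x : ℤ) ^ (3 * i) = 2 * (y : ℤ) ^ (4 * j) := by
      have h2 : (1 : ℤ) * (x : ℤ) ^ (3 * i) + 2 * (y : ℤ) ^ (4 * j) = 1 * (z : ℤ) ^ (3 * k) := by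
        exact_mod_cast h
      linear_combination -h2
    have h3 := famF (by omega) (by omega) (by omega) hy (Or.inr rfl) h1
      (fun l hl h4 h5 h6 => hG l hl h5 h6 h4)
    omega
  · have hab : a * b = 1 := by nlinarith
    obtain ⟨rfl, rfl⟩ := mul_eq_one.1 hab
    have h1 : (x : ℤ) ^ (3 * i) + 1 * (y : ℤ) ^ (3 * j) = 2 * (z : ℤ) ^ (4 * k) := by
      have h2 : (1 : ℤ) * (x : ℤ) ^ (3 * i) + 1 * (y : ℤ) ^ (3 * j) = 2 * (z : ℤ) ^ (4 * k) := by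
        exact_mod_cast h
      linear_combination h2
    obtain ⟨-, h3, h4, h5⟩ := famF (by omega) (by omega) (by omega) hz (Or.inl rfl) h1 hG
    exact ⟨rfl, rfl, rfl, h3, h4, h5⟩

end Pool.Agent.Results.MP_81d9be_nt.CubesTwiceFourth
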