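import Pool.Agent.H.MP_81d9be_nt.Six3

/-!
# MP_81d9be_nt: the equation `a x ^ p + b y ^ q = c z ^ r`, `a b c = 2`, with even exponents, one
divisible by `6` and another one divisible by `4`
-/

set_option autoImplicit false

namespace Pool.Agent.Results.MP_81d9be_nt.EvenFourSix

open GF2

/-- `u ^ p + v ^ q = 2 w ^ r`, `6 ∣ r`. -/
private theorem aux1 {u v w p q r : ℕ}
    (hG : ∀ l : ℕ, l.Prime → l ∣ u → l ∣ v → l ∣ w → False) (hp : 0 < p) (hq : 0 < q)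
    (hr : 0 < r) (hp2 : 2 ∣ p) (hq2 : 2 ∣ q) (hr6 : 6 ∣ r) (he : 4 ∣ p ∨ 4 ∣ q)
    (h : u ^ p + v ^ q = 2 * w ^ r) : u = 1 ∧ v = 1 ∧ w = 1 := by
  obtain ⟨k, rfl⟩ := hr6
  rcases he with he | he
  · obtain ⟨i, rfl⟩ := he
    obtain ⟨j, rfl⟩ := hq2
    exact famP (i := i) (j := j) (k := k) (by omega) (by omega) (by omega) h hG
  · obtain ⟨i, rfl⟩ := he
    obtain ⟨j, rfl⟩ := hp2
    obtain ⟨h1, h2, h3⟩ := famP (u := v) (v := u) (i := i) (j := j) (k := k) (by omega)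
      (by omega) (by omega) (by rw [add_comm]; exact h) (fun l h1 h2 h3 h4 => hG l h1 h3 h2 h4)
    exact ⟨h2, h1, h3⟩

/-- `2 w ^ r + u ^ p = v ^ q`, `6 ∣ r`. -/
private theorem aux2 {u v w p q r : ℕ}
    (hG : ∀ l : ℕ, l.Prime → l ∣ u → l ∣ v → l ∣ w → False) (hp : 0 < p) (hq : 0 < q)
    (hw : 0 < w) (hp2 : 2 ∣ p) (hq2 : 2 ∣ q) (hr6 : 6 ∣ r) (he : 4 ∣ p ∨ 4 ∣ q)
    (h : 2 * w ^ r + u ^ p = v ^ q) : False := by
  obtain ⟨k, rfl⟩ := hr6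
  rcases he with he | he
  · obtain ⟨i, rfl⟩ := he
    obtain ⟨j, rfl⟩ := hq2
    have hz : 2 * (w : ℤ) ^ (6 * k) + (u : ℤ) ^ (4 * i) = (v : ℤ) ^ (2 * j) := by
      exact_mod_cast h
    exact famM (u := u) (v := v) (w := w) (i := i) (j := j) (k := k) (ε := -1) (by omega)
      (by omega) hw (Or.inr rfl) (by linear_combination hz) hG
  · obtain ⟨i, rfl⟩ := he
    obtain ⟨j, rfl⟩ := hp2
    have hz : 2 * (w : ℤ) ^ (6 * k) + (u : ℤ) ^ (2 * j) = (v : ℤ) ^ (4 * i) := by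
      exact_mod_cast h
    exact famM (u := v) (v := u) (w := w) (i := i) (j := j) (k := k) (ε := 1) (by omega)
      (by omega) hw (Or.inl rfl) (by linear_combination -hz)
      (fun l h1 h2 h3 h4 => hG l h1 h3 h2 h4)

/-- `2 u ^ p + v ^ q = w ^ r`, `6 ∣ r`. -/
private theorem aux3 {u v w p q r : ℕ}
    (hG : ∀ l : ℕ, l.Prime → l ∣ u → l ∣ v → l ∣ w → False) (hp : 0 < p) (hq : 0 < q)
    (hr : 0 < r) (hu : 0 < u) (hp2 : 2 ∣ p) (hq2 : 2 ∣ q) (hr6 : 6 ∣ r) (he : 4 ∣ p ∨ 4 ∣ q)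
    (h : 2 * u ^ p + v ^ q = w ^ r) : False := by
  obtain ⟨k, rfl⟩ := hr6
  rcases he with he | he
  · obtain ⟨i, rfl⟩ := he
    obtain ⟨j, rfl⟩ := hq2
    exact fam4 (i := i) (j := j) (k := k) (by omega) (by omega) hu h hG
  · obtain ⟨i, rfl⟩ := he
    obtain ⟨j, rfl⟩ := hp2
    exact fam2 (i := j) (j := i) (k := k) (by omega) (by omega) hu h hG

/-- `2 u ^ p + v ^ q = w ^ r`, `4 ∣ p`, `6 ∣ q`, `4 ∣ r`. -/
private theorem aux4 {u v w p q r : ℕ}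
    (hG : ∀ l : ℕ, l.Prime → l ∣ u → l ∣ v → l ∣ w → False) (hq : 0 < q) (hr : 0 < r)
    (hu : 0 < u) (hp4 : 4 ∣ p) (hq6 : 6 ∣ q) (hr4 : 4 ∣ r) (h : 2 * u ^ p + v ^ q = w ^ r) :
    False := by
  obtain ⟨i, rfl⟩ := hp4
  obtain ⟨j, rfl⟩ := hq6
  obtain ⟨k, rfl⟩ := hr4
  exact fam6 (i := i) (j := j) (k := k) (by omega) (by omega) hu h hG

/-- Let `a x ^ p + b y ^ q = c z ^ r` in positive integers with `a b c = 2`,
`gcd (x, y, z) = 1` and even exponents `p, q, r`. Suppose that one of the following holds: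
`6` divides `r` and `4` divides `p` or `q`; or `6` divides the exponent of the term with
coefficient `2` and `4` divides one of the two other exponents; or the coefficient `2` is on the
left, `6` divides the exponent of the other term on the left and `4` divides the two remaining
exponents. Then `a = b = 1`, `c = 2` and `x = y = z = 1`. -/
theorem result :
    ∀ a b c x y z p q r : ℕ, a * b * c = 2 → 0 < x → 0 < y → 0 < z →
      Nat.gcd (Nat.gcd x y) z = 1 → 0 < p → 0 < q → 0 < r → 2 ∣ p → 2 ∣ q → 2 ∣ r →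
      ((6 ∣ r ∧ (4 ∣ p ∨ 4 ∣ q)) ∨
        (a = 2 ∧ 6 ∣ p ∧ (4 ∣ q ∨ 4 ∣ r)) ∨ (b = 2 ∧ 6 ∣ q ∧ (4 ∣ p ∨ 4 ∣ r)) ∨
        (a = 2 ∧ 6 ∣ q ∧ 4 ∣ p ∧ 4 ∣ r) ∨ (b = 2 ∧ 6 ∣ p ∧ 4 ∣ q ∧ 4 ∣ r)) →
      a * x ^ p + b * y ^ q = c * z ^ r →
      a = 1 ∧ b = 1 ∧ c = 2 ∧ x = 1 ∧ y = 1 ∧ z = 1 := by
  intro a b c x y z p q r habc hx hy hz hg hp hq hr hp2 hq2 hr2 hexp h
  have hG := gcd_aux hg
  have ha : a ∣ 2 := ⟨b * c, by rw [← habc]; ring⟩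
  have hb : b ∣ 2 := ⟨a * c, by rw [← habc]; ring⟩
  have hcases : (a = 2 ∧ b = 1 ∧ c = 1) ∨ (a = 1 ∧ b = 2 ∧ c = 1) ∨ (a = 1 ∧ b = 1 ∧ c = 2) := by
    rcases (Nat.dvd_prime Nat.prime_two).1 ha with rfl | rfl
    · rcases (Nat.dvd_prime Nat.prime_two).1 hb with rfl | rfl
      · right; right
        exact ⟨rfl, rfl, by omega⟩
      · right; left
        exact ⟨rfl, rfl, by omega⟩
    · left
      have hbc : b * c = 1 := by nlinarith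
      obtain ⟨rfl, rfl⟩ := mul_eq_one.1 hbc
      exact ⟨rfl, rfl, rfl⟩
  rcases hcases with ⟨rfl, rfl, rfl⟩ | ⟨rfl, rfl, rfl⟩ | ⟨rfl, rfl, rfl⟩
  · exfalso
    rcases hexp with ⟨h1, h2⟩ | ⟨-, h1, h2⟩ | ⟨h0, -⟩ | ⟨-, h1, h2, h3⟩ | ⟨h0, -⟩
    · exact aux3 (u := x) (v := y) (w := z) hG hp hq hr hx hp2 hq2 h1 h2 (by linarith)
    · exact aux2 (u := y) (v := z) (w := x) (fun l h3 h4 h5 h6 => hG l h3 h6 h4 h5) hq hr hx
        hq2 hr2 h1 h2 (by linarith)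
    · omega
    · exact aux4 (u := x) (v := y) (w := z) hG hq hr hx h2 h1 h3 (by linarith)
    · omega
  · exfalso
    rcases hexp with ⟨h1, h2⟩ | ⟨h0, -⟩ | ⟨-, h1, h2⟩ | ⟨h0, -⟩ | ⟨-, h1, h2, h3⟩
    · exact aux3 (u := y) (v := x) (w := z) (fun l h3 h4 h5 h6 => hG l h3 h5 h4 h6) hq hp hr hy
        hq2 hp2 h1 h2.symm (by linarith)
    · omega
    · exact aux2 (u := x) (v := z) (w := y) (fun l h3 h4 h5 h6 => hG l h3 h4 h6 h5) hp hr hy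
        hp2 hr2 h1 h2 (by linarith)
    · omega
    · exact aux4 (u := y) (v := x) (w := z) (fun l h4 h5 h6 h7 => hG l h4 h6 h5 h7) hp hr hy
        h2 h1 h3 (by linarith)
  · rcases hexp with ⟨h1, h2⟩ | ⟨h0, -⟩ | ⟨h0, -⟩ | ⟨h0, -⟩ | ⟨h0, -⟩
    · obtain ⟨h3, h4, h5⟩ := aux1 (u := x) (v := y) (w := z) hG hp hq hr hp2 hq2 h1 h2
        (by linarith)
      exact ⟨rfl, rfl, rfl, h3, h4, h5⟩
    · omega
    · omega
    · omega
    · omega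

end Pool.Agent.Results.MP_81d9be_nt.EvenFourSix
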