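import Pool.Agent.H.MP_81d9be_nt.Full
import Pool.Agent.H.MP_81d9be_nt.T2
import Pool.Agent.H.MP_81d9be_nt.Fam

/-!
# MP_81d9be_nt: `2 x ^ p + y ^ q = z ^ r` with `4 ∣ q`, `3 ∣ r` and `4 ∣ p` or `6 ∣ p` has the only
solution `2 * 5 ^ 4 + 3 ^ 4 = 11 ^ 3`
-/

set_option autoImplicit false

namespace Pool.Agent.Results.MP_81d9be_nt.LeftFourthsCube

open GF2

private theorem pr {x n m : ℕ} (hx : x ^ n = m) (hm : m.Prime) : x = m ∧ n = 1 := by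
  have h1 : (x ^ n).Prime := by rw [hx]; exact hm
  have h2 : n = 1 := Nat.Prime.eq_one_of_pow h1
  subst h2
  exact ⟨by rw [← hx, pow_one], rfl⟩

private theorem aux {x y z p q r : ℕ} (hx : 0 < x)
    (hG : ∀ l : ℕ, l.Prime → l ∣ x → l ∣ y → l ∣ z → False) (hp : 0 < p) (hq : 0 < q)
    (hr2 : 3 ∣ r) (hq2 : 4 ∣ q) (hp2 : 4 ∣ p ∨ 6 ∣ p)
    (h : 2 * x ^ p + y ^ q = z ^ r) :
    x = 5 ∧ p = 4 ∧ y = 3 ∧ q = 4 ∧ z = 11 ∧ r = 3 := by
  have hc : Nat.Coprime y x := by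
    by_contra hng
    obtain ⟨l, hl, h1, h2⟩ := Nat.Prime.not_coprime_iff_dvd.1 hng
    have h3 : l ∣ z ^ r := by
      rw [← h]
      exact dvd_add (Dvd.dvd.mul_left (dvd_pow h2 (by omega)) 2) (dvd_pow h1 (by omega))
    exact hG l hl h2 h1 (hl.dvd_of_dvd_pow h3)
  obtain ⟨k, rfl⟩ := hr2
  have hcop : ∀ i j : ℕ, IsCoprime ((y : ℤ) ^ j) ((x : ℤ) ^ i) := fun i j =>
    (Nat.isCoprime_iff_coprime.2 hc).pow
  have hx0 : ∀ i : ℕ, (x : ℤ) ^ i ≠ 0 := fun i => by positivity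
  obtain ⟨j, rfl⟩ := hq2
  rcases hp2 with ⟨i, rfl⟩ | ⟨i, rfl⟩
  · have h1 : 2 * (x : ℤ) ^ (4 * i) + (y : ℤ) ^ (4 * j) = (z : ℤ) ^ (3 * k) := by
      exact_mod_cast h
    obtain ⟨h2, h3⟩ := T44full (x := (z : ℤ) ^ k) (hcop i j) (hx0 i) (by
      rw [← pow_mul, ← pow_mul, ← pow_mul, mul_comm j 4, mul_comm i 4, mul_comm k 3]
      linear_combination h1)
    rw [Int.natAbs_pow, Int.natAbs_natCast] at h2 h3
    obtain ⟨rfl, rfl⟩ := pr h2 Nat.prime_three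
    obtain ⟨rfl, rfl⟩ := pr h3 Nat.prime_five
    have h4 : (z ^ k) ^ 3 = 11 ^ 3 := by
      rw [← pow_mul, mul_comm k 3, ← h]
      norm_num
    have h5 : z ^ k = 11 := Nat.pow_left_injective (n := 3) (by norm_num) h4
    obtain ⟨rfl, rfl⟩ := pr h5 (by norm_num)
    exact ⟨rfl, rfl, rfl, rfl, rfl, rfl⟩
  · exfalso
    have h1 : 2 * (x : ℤ) ^ (6 * i) + (y : ℤ) ^ (4 * j) = (z : ℤ) ^ (3 * k) := by
      exact_mod_cast h
    refine hx0 i (T23 (x := (z : ℤ) ^ k) (hcop i j) ?_)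
    rw [← pow_mul, ← pow_mul, ← pow_mul, mul_comm j 4, mul_comm i 6, mul_comm k 3]
    linear_combination h1

/-- Every solution of `a x ^ p + b y ^ q = c z ^ r` in positive integers with `a b c = 2`,
`gcd (x, y, z) = 1`, in which the coefficient `2` is on the left, the exponent of the other term on
the left is divisible by `4`, the exponent on the right is divisible by `3` and the exponent of the
term with the coefficient `2` is divisible by `4` or by `6`, is `2 * 5 ^ 4 + 3 ^ 4 = 11 ^ 3`. -/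
theorem result :
    ∀ a b c x y z p q r : ℕ, a * b * c = 2 → 0 < x → 0 < y → 0 < z →
      Nat.gcd (Nat.gcd x y) z = 1 → 0 < p → 0 < q → 0 < r →
      a * x ^ p + b * y ^ q = c * z ^ r → 3 ∣ r →
      (a = 2 → 4 ∣ q → (4 ∣ p ∨ 6 ∣ p) →
        (x, p) = (5, 4) ∧ (y, q) = (3, 4) ∧ (z, r) = (11, 3)) ∧
      (b = 2 → 4 ∣ p → (4 ∣ q ∨ 6 ∣ q) →
        (y, q) = (5, 4) ∧ (x, p) = (3, 4) ∧ (z, r) = (11, 3)) := by
  intro a b c x y z p q r habc hx hy hz hg hp hq hr h hr3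
  have hG := gcd_aux hg
  refine ⟨?_, ?_⟩
  · rintro rfl h1 h2
    have hbc : b * c = 1 := by nlinarith
    obtain ⟨rfl, rfl⟩ := mul_eq_one.1 hbc
    obtain ⟨e1, e2, e3, e4, e5, e6⟩ := aux hx hG hp hq hr3 h1 h2 (by linarith)
    exact ⟨by rw [e1, e2], by rw [e3, e4], by rw [e5, e6]⟩
  · rintro rfl h1 h2
    have hac : a * c = 1 := by nlinarith
    obtain ⟨rfl, rfl⟩ := mul_eq_one.1 hac
    obtain ⟨e1, e2, e3, e4, e5, e6⟩ :=
      aux hy (fun l hl h4 h5 h6 => hG l hl h5 h4 h6) hq hp hr3 h1 h2 (by linarith)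
    exact ⟨by rw [e1, e2], by rw [e3, e4], by rw [e5, e6]⟩

end Pool.Agent.Results.MP_81d9be_nt.LeftFourthsCube
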